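import Pool.Agent.Y725.DP.Ineq

/-!
For a monic integer polynomial `∏ (X + r)`, with complex `r` such that `0 ≤ Re r` and
`|Im r| ≤ (1 + Re r) / 10`, `r ≠ 1`, the real part of the sum of `r(r-2)/(3(1+r))` is nonnegative.
-/

set_option autoImplicit false

open Polynomial

namespace Pool.Agent.Y725.DP

open Pool.Agent.H311.Dom

noncomputable def Lc (r : ℂ) : ℝ := (r * (r - 2) / (3 * (1 + r))).re

theorem sum_logc {R : Multiset ℂ} {f : ℂ → ℂ} (h : ∀ r ∈ R, f r ≠ 0) :
    (R.map (fun r => Real.log ‖f r‖)).sum = Real.log ‖(R.map f).prod‖ := by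
  induction R using Multiset.induction with
  | empty => simp
  | cons a s ih =>
    have h1 : f a ≠ 0 := h a (Multiset.mem_cons_self a s)
    have h2 : ∀ r ∈ s, f r ≠ 0 := fun r hr => h r (Multiset.mem_cons_of_mem hr)
    have h3 : (s.map f).prod ≠ 0 := by
      intro h0
      rw [Multiset.prod_eq_zero_iff, Multiset.mem_map] at h0
      obtain ⟨r, hr, h0⟩ := h0
      exact h2 r hr h0
    rw [Multiset.map_cons, Multiset.sum_cons, Multiset.map_cons, Multiset.prod_cons, norm_mul,
      Real.log_mul (norm_ne_zero_iff.2 h1) (norm_ne_zero_iff.2 h3), ih h2]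

theorem log_int_nonnegc {x : ℂ} (z : ℤ) (h : x = z) : 0 ≤ Real.log ‖x‖ := by
  have h1 : ‖x‖ = |(z : ℝ)| := by
    rw [h, Complex.norm_intCast]
  rw [h1, Real.log_abs]
  exact log_int_nonneg z rfl

/-- evaluation of `∏ (X + r)`. -/
theorem eval_prodc (R : Multiset ℂ) (x : ℂ) :
    ((R.map (fun r => (X + C r : ℂ[X]))).prod).eval x = (R.map (fun r => x + r)).prod := by
  rw [Polynomial.eval_multiset_prod, Multiset.map_map]
  congr 1
  apply Multiset.map_congr rfl
  intro r _
  simp

theorem eval_intc {p : ℤ[X]} {R : Multiset ℂ}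
    (hp : p.map (Int.castRingHom ℂ) = (R.map (fun r => (X + C r : ℂ[X]))).prod) (z : ℤ) :
    (R.map (fun r => (z : ℂ) + r)).prod = (p.eval z : ℤ) := by
  rw [← eval_prodc, ← hp]
  simp

theorem quad_irrc {θ : ℂ} (h : θ ^ 2 - 3 * θ + 1 = 0) {a b : ℤ} (hab : (b : ℂ) = a * θ) :
    a = 0 ∧ b = 0 := by
  have h1 : (b ^ 2 - 3 * a * b + a ^ 2 : ℤ) = 0 := by
    have : ((b : ℂ) ^ 2 - 3 * a * b + (a : ℂ) ^ 2) = 0 := by
      rw [hab]
      linear_combination (a : ℂ) ^ 2 * h
    exact_mod_cast this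
  obtain ⟨t1, q1⟩ : ∃ t1 : ℝ, t1 ^ 2 - 3 * t1 + 1 = 0 := by
    refine ⟨(3 + Real.sqrt 5) / 2, ?_⟩
    have hs : Real.sqrt 5 ^ 2 = 5 := Real.sq_sqrt (by norm_num)
    nlinarith
  have q2 : (3 - t1) ^ 2 - 3 * (3 - t1) + 1 = 0 := by nlinarith
  have h2 : ((b : ℝ) - a * t1) * (b - a * (3 - t1)) = 0 := by
    have h3 : ((b : ℝ) ^ 2 - 3 * a * b + (a : ℝ) ^ 2) = 0 := by exact_mod_cast h1
    linear_combination h3 - (a : ℝ) ^ 2 * q1
  rcases mul_eq_zero.1 h2 with h3 | h3
  · exact quad_irr q1 (by linarith)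
  · exact quad_irr q2 (by linarith)

theorem m0_mapc : m0.map (Int.castRingHom ℂ) = X ^ 2 + C 3 * X + C 1 := by
  unfold m0
  rw [Polynomial.map_add, Polynomial.map_add, Polynomial.map_mul, Polynomial.map_pow,
    Polynomial.map_X, Polynomial.map_C, Polynomial.map_C]
  norm_num

/-- value at `-θ`. -/
theorem eval_thetac {p : ℤ[X]} {a b : ℤ} (h : p %ₘ m0 = C a * X + C b) {θ : ℂ}
    (hθ : θ ^ 2 - 3 * θ + 1 = 0) :
    (p.map (Int.castRingHom ℂ)).eval (-θ) = b - a * θ := by
  have h1 : p %ₘ m0 + m0 * (p /ₘ m0) = p := Polynomial.modByMonic_add_div p m0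
  have h2 : (p.map (Int.castRingHom ℂ)) = (C (a : ℂ) * X + C (b : ℂ))
      + (X ^ 2 + C 3 * X + C 1) * ((p /ₘ m0).map (Int.castRingHom ℂ)) := by
    conv_lhs => rw [← h1, h]
    rw [Polynomial.map_add, Polynomial.map_mul]
    congr 1
    · simp
    · rw [m0_mapc]
  rw [h2]
  simp only [eval_add, eval_mul, eval_C, eval_X, eval_pow]
  linear_combination ((p /ₘ m0).map (Int.castRingHom ℂ)).eval (-θ) * hθ

theorem one_add_ne {r : ℂ} (hr : 0 ≤ r.re) : 1 + r ≠ 0 := by
  intro h
  have := congrArg Complex.re h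
  simp at this
  linarith

theorem Lc_zero : Lc 0 = 0 := by simp [Lc]
theorem Lc_two : Lc 2 = 0 := by simp [Lc]
theorem Lc_theta {θ : ℂ} (h : θ ^ 2 - 3 * θ + 1 = 0) (h0 : 0 ≤ θ.re) (h1 : 0 ≤ (3 - θ).re) :
    Lc θ + Lc (3 - θ) = 0 := by
  unfold Lc
  rw [← Complex.add_re]
  have e1 : (1 + θ : ℂ) ≠ 0 := one_add_ne h0
  have e2 : (1 + (3 - θ) : ℂ) ≠ 0 := one_add_ne h1
  have : θ * (θ - 2) / (3 * (1 + θ)) + (3 - θ) * (3 - θ - 2) / (3 * (1 + (3 - θ))) = 0 := by
    field_simp
    linear_combination 3 * h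
  rw [this]
  simp

theorem cancel_rootc {q : ℂ[X]} {R : Multiset ℂ} {r : ℂ} (hr : r ∈ R)
    (h : (X + C r) * q = (R.map (fun r => (X + C r : ℂ[X]))).prod) :
    q = ((R.erase r).map (fun r => (X + C r : ℂ[X]))).prod := by
  have h1 : R = r ::ₘ R.erase r := (Multiset.cons_erase hr).symm
  rw [h1, Multiset.map_cons, Multiset.prod_cons] at h
  have h2 : (X + C r : ℂ[X]) ≠ 0 := Polynomial.X_add_C_ne_zero r
  exact mul_left_cancel₀ h2 h

theorem mem_of_rootc {R : Multiset ℂ} {x : ℂ}
    (h : ((R.map (fun r => (X + C r : ℂ[X]))).prod).eval (-x) = 0) : x ∈ R := by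
  rw [eval_prodc, Multiset.prod_eq_zero_iff, Multiset.mem_map] at h
  obtain ⟨r, hr, h⟩ := h
  have : r = x := by linear_combination h
  exact this ▸ hr

theorem root_of_memc {R : Multiset ℂ} {x : ℂ} (hx : x ∈ R) :
    ((R.map (fun r => (X + C r : ℂ[X]))).prod).eval (-x) = 0 := by
  rw [eval_prodc, Multiset.prod_eq_zero_iff, Multiset.mem_map]
  exact ⟨x, hx, by ring⟩

theorem sum_Lc_erase {R : Multiset ℂ} {r : ℂ} (hr : r ∈ R) :
    (R.map Lc).sum = Lc r + ((R.erase r).map Lc).sum := by
  conv_lhs => rw [← Multiset.cons_erase hr]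
  rw [Multiset.map_cons, Multiset.sum_cons]

theorem sum_Lc_nonneg (n : ℕ) : ∀ (p : ℤ[X]) (R : Multiset ℂ), Multiset.card R = n →
    p.map (Int.castRingHom ℂ) = (R.map (fun r => (X + C r : ℂ[X]))).prod →
    (∀ r ∈ R, 0 ≤ r.re ∧ |r.im| ≤ (1 + r.re) / 10) → (1 : ℂ) ∉ R → 0 ≤ (R.map Lc).sum := by
  induction n using Nat.strong_induction_on with
  | _ n ih =>
    intro p R hn hp hR h1
    -- extraction of an integer root
    have ext : ∀ z : ℤ, (z : ℂ) ∈ R → Lc z = 0 → 0 ≤ (R.map Lc).sum := by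
      intro z hz hL
      have e1 : (p.eval (-z) : ℤ) = 0 := by
        have := eval_intc hp (-z)
        have h2 : (R.map (fun r => ((-z : ℤ) : ℂ) + r)).prod = 0 := by
          rw [Multiset.prod_eq_zero_iff, Multiset.mem_map]
          exact ⟨z, hz, by push_cast; ring⟩
        rw [h2] at this
        exact_mod_cast this.symm
      obtain ⟨q, hq⟩ := Polynomial.dvd_iff_isRoot.mpr e1
      have e2 : (X + C (z : ℂ)) * q.map (Int.castRingHom ℂ)
          = (R.map (fun r => (X + C r : ℂ[X]))).prod := by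
        rw [← hp, hq, Polynomial.map_mul]
        congr 1
        simp
      have e3 := cancel_rootc hz e2
      have e4 := ih (Multiset.card (R.erase (z : ℂ))) (by
        rw [← hn]; exact Multiset.card_erase_lt_of_mem hz) q (R.erase (z : ℂ)) rfl e3
        (fun r hr => hR r (Multiset.mem_of_mem_erase hr))
        (fun h => h1 (Multiset.mem_of_mem_erase h))
      rw [sum_Lc_erase hz, hL, zero_add]
      exact e4
    by_cases c0 : (0 : ℂ) ∈ R
    · exact ext 0 (by simpa using c0) (by simpa using Lc_zero)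
    by_cases c2 : (2 : ℂ) ∈ R
    · exact ext 2 (by simpa using c2) (by simpa using Lc_two)
    obtain ⟨a, b, hab⟩ := rem_form p
    by_cases ct : ∃ θ ∈ R, θ ^ 2 - 3 * θ + 1 = 0
    · obtain ⟨θ, hθR, hθ⟩ := ct
      have e1 := eval_thetac hab hθ
      rw [hp, root_of_memc hθR] at e1
      obtain ⟨ha, hb⟩ := quad_irrc hθ (a := a) (b := b) (by linear_combination -e1)
      have e2 : p = m0 * (p /ₘ m0) := by
        conv_lhs => rw [← Polynomial.modByMonic_add_div p m0, hab, ha, hb]
        simp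
      set q := p /ₘ m0 with hq
      have e3 : p.map (Int.castRingHom ℂ) = (X + C θ) * ((X + C (3 - θ)) * q.map (Int.castRingHom ℂ)) := by
        conv_lhs => rw [e2, Polynomial.map_mul]
        rw [← mul_assoc]
        congr 1
        rw [m0_mapc]
        have : (X + C θ) * (X + C (3 - θ)) = (X ^ 2 + C 3 * X + C (θ * (3 - θ)) : ℂ[X]) := by
          rw [C_mul, C_sub]; ring
        rw [this, show θ * (3 - θ) = 1 by linear_combination -hθ]
      have e4 := cancel_rootc hθR (e3.symm.trans hp)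
      have hθ' : (3 - θ) ∈ R.erase θ := by
        apply mem_of_rootc
        rw [← e4, eval_mul]
        simp
      have e5 := cancel_rootc hθ' e4
      have n0 : 0 ≤ θ.re := (hR θ hθR).1
      have n1 : 0 ≤ (3 - θ).re := (hR _ (Multiset.mem_of_mem_erase hθ')).1
      have e6 := ih (Multiset.card ((R.erase θ).erase (3 - θ))) (by
        rw [← hn]
        exact lt_trans (Multiset.card_erase_lt_of_mem hθ') (Multiset.card_erase_lt_of_mem hθR))
        q ((R.erase θ).erase (3 - θ)) rfl e5
        (fun r hr => hR r (Multiset.mem_of_mem_erase (Multiset.mem_of_mem_erase hr)))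
        (fun h => h1 (Multiset.mem_of_mem_erase (Multiset.mem_of_mem_erase h)))
      rw [sum_Lc_erase hθR, sum_Lc_erase hθ']
      have := Lc_theta hθ n0 n1
      linarith
    · push Not at ct
      have f0 : ∀ r ∈ R, r ≠ 0 := fun r hr h => c0 (h ▸ hr)
      have f1 : ∀ r ∈ R, r - 1 ≠ 0 := fun r hr h => h1 (by
        have : r = 1 := by linear_combination h
        exact this ▸ hr)
      have f2 : ∀ r ∈ R, r - 2 ≠ 0 := fun r hr h => c2 (by
        have : r = 2 := by linear_combination h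
        exact this ▸ hr)
      have f3 : ∀ r ∈ R, r ^ 2 - 3 * r + 1 ≠ 0 := ct
      have key : (R.map (fun r => (57/1000) * Real.log ‖r‖ + (101/500) * Real.log ‖r - 1‖
          + (37/500) * Real.log ‖r - 2‖ + (3/50) * Real.log ‖r ^ 2 - 3 * r + 1‖)).sum
          ≤ (R.map Lc).sum := by
        apply Multiset.sum_map_le_sum_map
        intro r hr
        exact cineq (hR r hr).1 (hR r hr).2 (f0 r hr) (f1 r hr) (f2 r hr) (f3 r hr)
      refine le_trans ?_ key
      rw [Multiset.sum_map_add, Multiset.sum_map_add, Multiset.sum_map_add,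
        Multiset.sum_map_mul_left, Multiset.sum_map_mul_left, Multiset.sum_map_mul_left,
        Multiset.sum_map_mul_left]
      have g0 : 0 ≤ (R.map (fun r => Real.log ‖r‖)).sum := by
        rw [sum_logc (f := fun r => r) f0]
        apply log_int_nonnegc (p.eval 0)
        have := eval_intc hp 0
        simpa using this
      have g1 : 0 ≤ (R.map (fun r => Real.log ‖r - 1‖)).sum := by
        rw [sum_logc (f := fun r => r - 1) f1]
        apply log_int_nonnegc (p.eval (-1))
        have := eval_intc hp (-1)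
        rw [← this]
        congr 1
        apply Multiset.map_congr rfl
        intro r _
        push_cast; ring
      have g2 : 0 ≤ (R.map (fun r => Real.log ‖r - 2‖)).sum := by
        rw [sum_logc (f := fun r => r - 2) f2]
        apply log_int_nonnegc (p.eval (-2))
        have := eval_intc hp (-2)
        rw [← this]
        congr 1
        apply Multiset.map_congr rfl
        intro r _
        push_cast; ring
      have g3 : 0 ≤ (R.map (fun r => Real.log ‖r ^ 2 - 3 * r + 1‖)).sum := by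
        rw [sum_logc (f := fun r => r ^ 2 - 3 * r + 1) f3]
        apply log_int_nonnegc (b ^ 2 - 3 * a * b + a ^ 2)
        obtain ⟨t1, q1⟩ : ∃ t1 : ℝ, t1 ^ 2 - 3 * t1 + 1 = 0 := by
          refine ⟨(3 + Real.sqrt 5) / 2, ?_⟩
          have hs : Real.sqrt 5 ^ 2 = 5 := Real.sq_sqrt (by norm_num)
          nlinarith
        have q1 : (t1 : ℂ) ^ 2 - 3 * t1 + 1 = 0 := by exact_mod_cast q1
        have q2 : (3 - (t1 : ℂ)) ^ 2 - 3 * (3 - (t1 : ℂ)) + 1 = 0 := by linear_combination q1
        have v1 := eval_thetac hab q1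
        have v2 := eval_thetac hab q2
        rw [hp, eval_prodc] at v1 v2
        have : (R.map (fun r => r ^ 2 - 3 * r + 1)).prod
            = (R.map (fun r => -(t1 : ℂ) + r)).prod * (R.map (fun r => -(3 - (t1 : ℂ)) + r)).prod := by
          rw [← Multiset.prod_map_mul]
          congr 1
          apply Multiset.map_congr rfl
          intro r _
          linear_combination q1
        rw [this, v1, v2]
        push_cast
        linear_combination (-(a : ℂ) ^ 2) * q1
      positivity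

end Pool.Agent.Y725.DP
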