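import Mathlib
import Pool.Agent.H311.Dom.Poly

/-!
Auxiliary-function inequality near the half-line: for complex `r` with `0 ≤ Re r`,
`|Im r| ≤ (1 + Re r) / 10` (and `r ≠ 0, 1, 2`, `r^2-3r+1 ≠ 0`)
`(57/1000) log |r| + (101/500) log |r-1| + (37/500) log |r-2| + (3/50) log |r^2-3r+1|`
is at most the real part of `r(r-2)/(3(1+r))`.
-/

set_option autoImplicit false

namespace Pool.Agent.Y725.DP

open Pool.Agent.H311.Dom

theorem lub {X : ℝ} (hX : 0 < X) (k : ℕ) (h : X ^ 32 ≤ 2 ^ k) :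
    Real.log X ≤ (k / 32 : ℝ) * 0.6932 := by
  have := log_ub_nonneg hX 32 k (by norm_num) h
  simpa using this

theorem lubn {X : ℝ} (hX : 0 < X) (k : ℕ) (h : X ^ 32 * 2 ^ k ≤ 1) :
    Real.log X ≤ -(k / 32 : ℝ) * 0.6931 := by
  have := log_ub_neg hX 32 k (by norm_num) h
  simpa using this

theorem lubh {X : ℝ} (hX : 0 < X) (k : ℕ) (h : X ^ 16 ≤ 2 ^ k) :
    Real.log X ≤ (k / 16 : ℝ) * 0.6932 := by
  have := log_ub_nonneg hX 16 k (by norm_num) h
  simpa using this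

/-- Reduction of the inequality to a polynomial one in the real part. -/
theorem red {r : ℂ} (hr : 0 ≤ r.re) (hi : r.im ^ 2 ≤ (1 + r.re) ^ 2 / 100) (h0 : r ≠ 0)
    (h1 : r - 1 ≠ 0) (h2 : r - 2 ≠ 0) (h3 : r ^ 2 - 3 * r + 1 ≠ 0) {X0 X1 X2 X3 q0 q1 q2 q3 : ℝ}
    (p0 : 0 < X0) (p1 : 0 < X1) (p2 : 0 < X2) (p3 : 0 < X3) (l0 : Real.log X0 ≤ q0)
    (l1 : Real.log X1 ≤ q1) (l2 : Real.log X2 ≤ q2) (l3 : Real.log X3 ≤ q3)
    (hP : 0 ≤ (1 + r.re) * (r.re / 3 - 1
      - (57/2000) * ((r.re ^ 2 + (1 + r.re) ^ 2 / 100) / X0 - 1 + q0)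
      - (101/1000) * (((r.re - 1) ^ 2 + (1 + r.re) ^ 2 / 100) / X1 - 1 + q1)
      - (37/1000) * (((r.re - 2) ^ 2 + (1 + r.re) ^ 2 / 100) / X2 - 1 + q2)
      - (3/100) * (((r.re ^ 2 - 3 * r.re + 1) ^ 2
        + (1 + r.re) ^ 2 / 100 * (2 * r.re ^ 2 - 6 * r.re + 7)
        + ((1 + r.re) ^ 2 / 100) ^ 2) / X3 - 1 + q3)) + (1 - 1/100)) :
    (57/1000) * Real.log ‖r‖ + (101/500) * Real.log ‖r - 1‖ + (37/500) * Real.log ‖r - 2‖
      + (3/50) * Real.log ‖r ^ 2 - 3 * r + 1‖ ≤ (r * (r - 2) / (3 * (1 + r))).re := by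
  have e0 := log_sq_le (norm_ne_zero_iff.2 h0) p0 l0
  have e1 := log_sq_le (norm_ne_zero_iff.2 h1) p1 l1
  have e2 := log_sq_le (norm_ne_zero_iff.2 h2) p2 l2
  have e3 := log_sq_le (norm_ne_zero_iff.2 h3) p3 l3
  obtain ⟨x, y⟩ := r
  have n0 : ‖(⟨x, y⟩ : ℂ)‖ ^ 2 = x ^ 2 + y ^ 2 := by
    rw [Complex.sq_norm, Complex.normSq_apply]; ring
  have n1 : ‖(⟨x, y⟩ : ℂ) - 1‖ ^ 2 = (x - 1) ^ 2 + y ^ 2 := by
    rw [Complex.sq_norm, Complex.normSq_apply]; simp; ring
  have n2 : ‖(⟨x, y⟩ : ℂ) - 2‖ ^ 2 = (x - 2) ^ 2 + y ^ 2 := by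
    rw [Complex.sq_norm, Complex.normSq_apply]; simp; ring
  have n3 : ‖(⟨x, y⟩ : ℂ) ^ 2 - 3 * ⟨x, y⟩ + 1‖ ^ 2 =
      (x ^ 2 - 3 * x + 1) ^ 2 + y ^ 2 * (2 * x ^ 2 - 6 * x + 7) + (y ^ 2) ^ 2 := by
    rw [Complex.sq_norm, Complex.normSq_apply]; simp [pow_two]; ring
  simp only at hr hi hP
  have hx1 : 0 < 1 + x := by linarith
  have hne : (1 + (⟨x, y⟩ : ℂ)) ≠ 0 := by
    intro h
    have := congrArg Complex.re h
    simp at this
    linarith
  have hns : Complex.normSq (1 + (⟨x, y⟩ : ℂ)) = (1 + x) ^ 2 + y ^ 2 := by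
    rw [Complex.normSq_apply]; simp; ring
  have hL : ((⟨x, y⟩ : ℂ) * (⟨x, y⟩ - 2) / (3 * (1 + ⟨x, y⟩))).re =
      x / 3 - 1 + (1 + x) / ((1 + x) ^ 2 + y ^ 2) := by
    have e : (⟨x, y⟩ : ℂ) * (⟨x, y⟩ - 2) / (3 * (1 + ⟨x, y⟩)) =
        (⟨x, y⟩ : ℂ) * ((1 / 3 : ℝ) : ℂ) - 1 + (1 + (⟨x, y⟩ : ℂ))⁻¹ := by
      push_cast
      field_simp
      ring
    rw [e, Complex.add_re, Complex.sub_re, Complex.re_mul_ofReal, Complex.inv_re, hns]
    simp
    ring
  have hpos : 0 < (1 + x) ^ 2 + y ^ 2 := by positivity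
  have hfrac : (1 - 1/100) / (1 + x) ≤ (1 + x) / ((1 + x) ^ 2 + y ^ 2) := by
    rw [div_le_div_iff₀ hx1 hpos]
    nlinarith [sq_nonneg (1 + x), sq_nonneg y]
  rw [n0] at e0
  rw [n1] at e1
  rw [n2] at e2
  rw [n3] at e3
  rw [hL]
  -- monotonicity in `y ^ 2`
  have m0 : (x ^ 2 + y ^ 2) / X0 ≤ (x ^ 2 + (1 + x) ^ 2 / 100) / X0 :=
    div_le_div_of_nonneg_right (by linarith) p0.le
  have m1 : ((x - 1) ^ 2 + y ^ 2) / X1 ≤ ((x - 1) ^ 2 + (1 + x) ^ 2 / 100) / X1 :=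
    div_le_div_of_nonneg_right (by linarith) p1.le
  have m2 : ((x - 2) ^ 2 + y ^ 2) / X2 ≤ ((x - 2) ^ 2 + (1 + x) ^ 2 / 100) / X2 :=
    div_le_div_of_nonneg_right (by linarith) p2.le
  have m3 : ((x ^ 2 - 3 * x + 1) ^ 2 + y ^ 2 * (2 * x ^ 2 - 6 * x + 7) + (y ^ 2) ^ 2) / X3 ≤
      ((x ^ 2 - 3 * x + 1) ^ 2 + (1 + x) ^ 2 / 100 * (2 * x ^ 2 - 6 * x + 7)
        + ((1 + x) ^ 2 / 100) ^ 2) / X3 := by
    refine div_le_div_of_nonneg_right ?_ p3.le
    have g1 : 0 < 2 * x ^ 2 - 6 * x + 7 := by nlinarith [sq_nonneg (2 * x - 3)]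
    have g2 : y ^ 2 * (2 * x ^ 2 - 6 * x + 7) ≤ (1 + x) ^ 2 / 100 * (2 * x ^ 2 - 6 * x + 7) :=
      mul_le_mul_of_nonneg_right hi g1.le
    have g3 : (y ^ 2) ^ 2 ≤ ((1 + x) ^ 2 / 100) ^ 2 := by
      apply pow_le_pow_left₀ (sq_nonneg y) hi
    linarith
  set U := x / 3 - 1
      - (57/2000) * ((x ^ 2 + (1 + x) ^ 2 / 100) / X0 - 1 + q0)
      - (101/1000) * (((x - 1) ^ 2 + (1 + x) ^ 2 / 100) / X1 - 1 + q1)
      - (37/1000) * (((x - 2) ^ 2 + (1 + x) ^ 2 / 100) / X2 - 1 + q2)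
      - (3/100) * (((x ^ 2 - 3 * x + 1) ^ 2
        + (1 + x) ^ 2 / 100 * (2 * x ^ 2 - 6 * x + 7)
        + ((1 + x) ^ 2 / 100) ^ 2) / X3 - 1 + q3) with hU
  have hUf : 0 ≤ U + (1 - 1/100) / (1 + x) := by
    have : U + (1 - 1/100) / (1 + x) = ((1 + x) * U + (1 - 1/100)) / (1 + x) := by
      field_simp
    rw [this]
    exact div_nonneg hP hx1.le
  linarith


theorem pc_0 {r : ℂ} (ha : 0 ≤ r.re) (hb : r.re ≤ (9/40))
    (hi : r.im ^ 2 ≤ (1 + r.re) ^ 2 / 100) (h0 : r ≠ 0)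
    (h1 : r - 1 ≠ 0) (h2 : r - 2 ≠ 0) (h3 : r ^ 2 - 3 * r + 1 ≠ 0) :
    (57/1000) * Real.log ‖r‖ + (101/500) * Real.log ‖r - 1‖ + (37/500) * Real.log ‖r - 2‖
      + (3/50) * Real.log ‖r ^ 2 - 3 * r + 1‖ ≤ (r * (r - 2) / (3 * (1 + r))).re := by
  have hr : 0 ≤ r.re := le_trans (by norm_num) ha
  have l0 := lubn (X := (9/200)) (by norm_num) 143 (by norm_num)
  have l1 := lubn (X := (4/5)) (by norm_num) 10 (by norm_num)
  have l2 := lub (X := (31/10)) (by norm_num) 53 (by norm_num)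
  have l3 := lubn (X := (17/50)) (by norm_num) 49 (by norm_num)
  refine red hr hi h0 h1 h2 h3 (by norm_num) (by norm_num) (by norm_num) (by norm_num) l0 l1 l2 l3 ?_
  generalize r.re = x at *
  have hB := bern5 (u := x - 0) (w := (9/40) - x) (by linarith) (by linarith)
    (39988557988/2333911725) (3459598298873/23339117250) (4298144639246/11669558625) (8469493923373/23339117250) (6069687412129/46678234500) (7986049256369/1867129380000) (by norm_num) (by norm_num) (by norm_num) (by norm_num) (by norm_num) (by norm_num)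
  refine le_trans hB (le_of_eq ?_)
  push_cast
  ring


theorem pc_1 {r : ℂ} (ha : (9/40) ≤ r.re) (hb : r.re ≤ (17/40))
    (hi : r.im ^ 2 ≤ (1 + r.re) ^ 2 / 100) (h0 : r ≠ 0)
    (h1 : r - 1 ≠ 0) (h2 : r - 2 ≠ 0) (h3 : r ^ 2 - 3 * r + 1 ≠ 0) :
    (57/1000) * Real.log ‖r‖ + (101/500) * Real.log ‖r - 1‖ + (37/500) * Real.log ‖r - 2‖
      + (3/50) * Real.log ‖r ^ 2 - 3 * r + 1‖ ≤ (r * (r - 2) / (3 * (1 + r))).re := by
  have hr : 0 ≤ r.re := le_trans (by norm_num) ha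
  have l0 := lubn (X := (13/100)) (by norm_num) 94 (by norm_num)
  have l1 := lubn (X := (27/50)) (by norm_num) 28 (by norm_num)
  have l2 := lub (X := (16/5)) (by norm_num) 54 (by norm_num)
  have l3 := lubn (X := (9/50)) (by norm_num) 79 (by norm_num)
  refine red hr hi h0 h1 h2 h3 (by norm_num) (by norm_num) (by norm_num) (by norm_num) l0 l1 l2 l3 ?_
  generalize r.re = x at *
  have hB := bern5 (u := x - (9/40)) (w := (17/40) - x) (by linarith) (by linarith)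
    (2569826060807/230031360000) (9842920419967/46006272000) (2775290458891/4600627200) (4778322084709/7667712000) (11030682688871/46006272000) (99599708809/5898240000) (by norm_num) (by norm_num) (by norm_num) (by norm_num) (by norm_num) (by norm_num)
  refine le_trans hB (le_of_eq ?_)
  push_cast
  ring


theorem pc_2 {r : ℂ} (ha : (17/40) ≤ r.re) (hb : r.re ≤ (29/40))
    (hi : r.im ^ 2 ≤ (1 + r.re) ^ 2 / 100) (h0 : r ≠ 0)
    (h1 : r - 1 ≠ 0) (h2 : r - 2 ≠ 0) (h3 : r ^ 2 - 3 * r + 1 ≠ 0) :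
    (57/1000) * Real.log ‖r‖ + (101/500) * Real.log ‖r - 1‖ + (37/500) * Real.log ‖r - 2‖
      + (3/50) * Real.log ‖r ^ 2 - 3 * r + 1‖ ≤ (r * (r - 2) / (3 * (1 + r))).re := by
  have hr : 0 ≤ r.re := le_trans (by norm_num) ha
  have l0 := lubn (X := (59/200)) (by norm_num) 56 (by norm_num)
  have l1 := lubn (X := (29/100)) (by norm_num) 57 (by norm_num)
  have l2 := lub (X := (79/50)) (by norm_num) 22 (by norm_num)
  have l3 := lubn (X := (13/50)) (by norm_num) 62 (by norm_num)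
  refine red hr hi h0 h1 h2 h3 (by norm_num) (by norm_num) (by norm_num) (by norm_num) l0 l1 l2 l3 ?_
  generalize r.re = x at *
  have hB := bern5 (u := x - (17/40)) (w := (29/40) - x) (by linarith) (by linarith)
    (11645603933599501/8744936878080000) (274396087909261/7379693568000) (94508536156701269/874493687808000) (97391991982166833/874493687808000) (8100394034585909/194331930624000) (21140100357912857/8744936878080000) (by norm_num) (by norm_num) (by norm_num) (by norm_num) (by norm_num) (by norm_num)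
  refine le_trans hB (le_of_eq ?_)
  push_cast
  ring


theorem pc_3 {r : ℂ} (ha : (29/40) ≤ r.re) (hb : r.re ≤ (47/40))
    (hi : r.im ^ 2 ≤ (1 + r.re) ^ 2 / 100) (h0 : r ≠ 0)
    (h1 : r - 1 ≠ 0) (h2 : r - 2 ≠ 0) (h3 : r ^ 2 - 3 * r + 1 ≠ 0) :
    (57/1000) * Real.log ‖r‖ + (101/500) * Real.log ‖r - 1‖ + (37/500) * Real.log ‖r - 2‖
      + (3/50) * Real.log ‖r ^ 2 - 3 * r + 1‖ ≤ (r * (r - 2) / (3 * (1 + r))).re := by
  have hr : 0 ≤ r.re := le_trans (by norm_num) ha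
  have l0 := lub (X := (71/50)) (by norm_num) 17 (by norm_num)
  have l1 := lubn (X := (19/200)) (by norm_num) 108 (by norm_num)
  have l2 := lub (X := (59/50)) (by norm_num) 8 (by norm_num)
  have l3 := lubn (X := (4/5)) (by norm_num) 10 (by norm_num)
  refine red hr hi h0 h1 h2 h3 (by norm_num) (by norm_num) (by norm_num) (by norm_num) l0 l1 l2 l3 ?_
  generalize r.re = x at *
  have hB := bern5 (u := x - (29/40)) (w := (47/40) - x) (by linarith) (by linarith)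
    (482100247150503023/120314085350400000) (1034504395268164709/24062817070080000) (1433864010408796727/12031408535040000) (1622620344542192381/12031408535040000) (81359196757507877/1266464056320000) (1146536156496498389/120314085350400000) (by norm_num) (by norm_num) (by norm_num) (by norm_num) (by norm_num) (by norm_num)
  refine le_trans hB (le_of_eq ?_)
  push_cast
  ring


theorem pc_4 {r : ℂ} (ha : (47/40) ≤ r.re) (hb : r.re ≤ (8/5))
    (hi : r.im ^ 2 ≤ (1 + r.re) ^ 2 / 100) (h0 : r ≠ 0)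
    (h1 : r - 1 ≠ 0) (h2 : r - 2 ≠ 0) (h3 : r ^ 2 - 3 * r + 1 ≠ 0) :
    (57/1000) * Real.log ‖r‖ + (101/500) * Real.log ‖r - 1‖ + (37/500) * Real.log ‖r - 2‖
      + (3/50) * Real.log ‖r ^ 2 - 3 * r + 1‖ ≤ (r * (r - 2) / (3 * (1 + r))).re := by
  have hr : 0 ≤ r.re := le_trans (by norm_num) ha
  have l0 := lub (X := (49/25)) (by norm_num) 32 (by norm_num)
  have l1 := lubn (X := (3/8)) (by norm_num) 45 (by norm_num)
  have l2 := lubn (X := (39/100)) (by norm_num) 43 (by norm_num)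
  have l3 := lub (X := (34/25)) (by norm_num) 15 (by norm_num)
  refine red hr hi h0 h1 h2 h3 (by norm_num) (by norm_num) (by norm_num) (by norm_num) l0 l1 l2 l3 ?_
  generalize r.re = x at *
  have hB := bern5 (u := x - (47/40)) (w := (8/5) - x) (by linarith) (by linarith)
    (802089762358103/1230050516240000) (936976169158703/92253788718000) (163978655595046/5765861794875) (33819861400256/1153172358975) (61410363563104/5765861794875) (522597206272/2217639151875) (by norm_num) (by norm_num) (by norm_num) (by norm_num) (by norm_num) (by norm_num)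
  refine le_trans hB (le_of_eq ?_)
  push_cast
  ring


theorem pc_5 {r : ℂ} (ha : (8/5) ≤ r.re) (hb : r.re ≤ 2)
    (hi : r.im ^ 2 ≤ (1 + r.re) ^ 2 / 100) (h0 : r ≠ 0)
    (h1 : r - 1 ≠ 0) (h2 : r - 2 ≠ 0) (h3 : r ^ 2 - 3 * r + 1 ≠ 0) :
    (57/1000) * Real.log ‖r‖ + (101/500) * Real.log ‖r - 1‖ + (37/500) * Real.log ‖r - 2‖
      + (3/50) * Real.log ‖r ^ 2 - 3 * r + 1‖ ≤ (r * (r - 2) / (3 * (1 + r))).re := by
  have hr : 0 ≤ r.re := le_trans (by norm_num) ha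
  have l0 := lub (X := (169/50)) (by norm_num) 57 (by norm_num)
  have l1 := lubn (X := (31/50)) (by norm_num) 22 (by norm_num)
  have l2 := lubn (X := (33/200)) (by norm_num) 83 (by norm_num)
  have l3 := lub (X := (8/5)) (by norm_num) 22 (by norm_num)
  refine red hr hi h0 h1 h2 h3 (by norm_num) (by norm_num) (by norm_num) (by norm_num) l0 l1 l2 l3 ?_
  generalize r.re = x at *
  have hB := bern5 (u := x - (8/5)) (w := 2 - x) (by linarith) (by linarith)
    (1102435114907/5447270400000) (40193948159737/2832580608000) (63071581776767/1416290304000) (68117196152933/1416290304000) (51529006678379/2832580608000) (117527840723/188838707200) (by norm_num) (by norm_num) (by norm_num) (by norm_num) (by norm_num) (by norm_num)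
  refine le_trans hB (le_of_eq ?_)
  push_cast
  ring


theorem pc_6 {r : ℂ} (ha : 2 ≤ r.re) (hb : r.re ≤ (13/5))
    (hi : r.im ^ 2 ≤ (1 + r.re) ^ 2 / 100) (h0 : r ≠ 0)
    (h1 : r - 1 ≠ 0) (h2 : r - 2 ≠ 0) (h3 : r ^ 2 - 3 * r + 1 ≠ 0) :
    (57/1000) * Real.log ‖r‖ + (101/500) * Real.log ‖r - 1‖ + (37/500) * Real.log ‖r - 2‖
      + (3/50) * Real.log ‖r ^ 2 - 3 * r + 1‖ ≤ (r * (r - 2) / (3 * (1 + r))).re := by
  have hr : 0 ≤ r.re := le_trans (by norm_num) ha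
  have l0 := lub (X := (149/25)) (by norm_num) 83 (by norm_num)
  have l1 := lub (X := (87/50)) (by norm_num) 26 (by norm_num)
  have l2 := lubn (X := (13/50)) (by norm_num) 62 (by norm_num)
  have l3 := lub (X := (51/50)) (by norm_num) 1 (by norm_num)
  refine red hr hi h0 h1 h2 h3 (by norm_num) (by norm_num) (by norm_num) (by norm_num) l0 l1 l2 l3 ?_
  generalize r.re = x at *
  have hB := bern5 (u := x - 2) (w := (13/5) - x) (by linarith) (by linarith)
    (7199487281/220018406400) (5006721005959/1650138048000) (16972019204761/1650138048000) (289553033753/24266736000) (1733180770943/366697344000) (397462663309/8250690240000) (by norm_num) (by norm_num) (by norm_num) (by norm_num) (by norm_num) (by norm_num)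
  refine le_trans hB (le_of_eq ?_)
  push_cast
  ring


theorem pc_7 {r : ℂ} (ha : (13/5) ≤ r.re) (hb : r.re ≤ (121/40))
    (hi : r.im ^ 2 ≤ (1 + r.re) ^ 2 / 100) (h0 : r ≠ 0)
    (h1 : r - 1 ≠ 0) (h2 : r - 2 ≠ 0) (h3 : r ^ 2 - 3 * r + 1 ≠ 0) :
    (57/1000) * Real.log ‖r‖ + (101/500) * Real.log ‖r - 1‖ + (37/500) * Real.log ‖r - 2‖
      + (3/50) * Real.log ‖r ^ 2 - 3 * r + 1‖ ≤ (r * (r - 2) / (3 * (1 + r))).re := by
  have hr : 0 ≤ r.re := le_trans (by norm_num) ha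
  have l0 := lub (X := (327/50)) (by norm_num) 87 (by norm_num)
  have l1 := lub (X := 4) (by norm_num) 64 (by norm_num)
  have l2 := lub (X := (51/50)) (by norm_num) 1 (by norm_num)
  have l3 := lub (X := (7/5)) (by norm_num) 16 (by norm_num)
  refine red hr hi h0 h1 h2 h3 (by norm_num) (by norm_num) (by norm_num) (by norm_num) l0 l1 l2 l3 ?_
  generalize r.re = x at *
  have hB := bern5 (u := x - (13/5)) (w := (121/40) - x) (by linarith) (by linarith)
    (3054400193568/3385471534375) (29276853244126/2031282920625) (85804177431008/2031282920625) (188096753619679/4062565841250) (151129119111611/8125131682500) (93689822964917/92858647800000) (by norm_num) (by norm_num) (by norm_num) (by norm_num) (by norm_num) (by norm_num)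
  refine le_trans hB (le_of_eq ?_)
  push_cast
  ring


theorem pc_8 {r : ℂ} (ha : (121/40) ≤ r.re) (hb : r.re ≤ (141/40))
    (hi : r.im ^ 2 ≤ (1 + r.re) ^ 2 / 100) (h0 : r ≠ 0)
    (h1 : r - 1 ≠ 0) (h2 : r - 2 ≠ 0) (h3 : r ^ 2 - 3 * r + 1 ≠ 0) :
    (57/1000) * Real.log ‖r‖ + (101/500) * Real.log ‖r - 1‖ + (37/500) * Real.log ‖r - 2‖
      + (3/50) * Real.log ‖r ^ 2 - 3 * r + 1‖ ≤ (r * (r - 2) / (3 * (1 + r))).re := by
  have hr : 0 ≤ r.re := le_trans (by norm_num) ha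
  have l0 := lub (X := 12) (by norm_num) 115 (by norm_num)
  have l1 := lub (X := (289/50)) (by norm_num) 81 (by norm_num)
  have l2 := lub (X := (73/50)) (by norm_num) 18 (by norm_num)
  have l3 := lub (X := (104/25)) (by norm_num) 66 (by norm_num)
  refine red hr hi h0 h1 h2 h3 (by norm_num) (by norm_num) (by norm_num) (by norm_num) l0 l1 l2 l3 ?_
  generalize r.re = x at *
  have hB := bern5 (u := x - (121/40)) (w := (141/40) - x) (by linarith) (by linarith)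
    (112384932027423127/842529792000000000) (12386811365425099/2308300800000000) (473612479600035509/28084326400000000) (1554928767735958027/84252979200000000) (1173906804635418727/168505958400000000) (2227871669651777/16520192000000000) (by norm_num) (by norm_num) (by norm_num) (by norm_num) (by norm_num) (by norm_num)
  refine le_trans hB (le_of_eq ?_)
  push_cast
  ring


theorem pc_9 {r : ℂ} (ha : (141/40) ≤ r.re) (hb : r.re ≤ (171/40))
    (hi : r.im ^ 2 ≤ (1 + r.re) ^ 2 / 100) (h0 : r ≠ 0)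
    (h1 : r - 1 ≠ 0) (h2 : r - 2 ≠ 0) (h3 : r ^ 2 - 3 * r + 1 ≠ 0) :
    (57/1000) * Real.log ‖r‖ + (101/500) * Real.log ‖r - 1‖ + (37/500) * Real.log ‖r - 2‖
      + (3/50) * Real.log ‖r ^ 2 - 3 * r + 1‖ ≤ (r * (r - 2) / (3 * (1 + r))).re := by
  have hr : 0 ≤ r.re := le_trans (by norm_num) ha
  have l0 := lub (X := 16) (by norm_num) 128 (by norm_num)
  have l1 := lub (X := (87/10)) (by norm_num) 100 (by norm_num)
  have l2 := lub (X := (39/10)) (by norm_num) 63 (by norm_num)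
  have l3 := lub (X := 26) (by norm_num) 151 (by norm_num)
  refine red hr hi h0 h1 h2 h3 (by norm_num) (by norm_num) (by norm_num) (by norm_num) l0 l1 l2 l3 ?_
  generalize r.re = x at *
  have hB := bern5 (u := x - (141/40)) (w := (171/40) - x) (by linarith) (by linarith)
    (9424948842323639/54966600000000000) (33803736090246209/10993320000000000) (57855161052737879/5496660000000000) (80663255816731649/5496660000000000) (101092528341950519/10993320000000000) (117723264658607489/54966600000000000) (by norm_num) (by norm_num) (by norm_num) (by norm_num) (by norm_num) (by norm_num)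
  refine le_trans hB (le_of_eq ?_)
  push_cast
  ring


theorem pc_10 {r : ℂ} (ha : (171/40) ≤ r.re) (hb : r.re ≤ (43/8))
    (hi : r.im ^ 2 ≤ (1 + r.re) ^ 2 / 100) (h0 : r ≠ 0)
    (h1 : r - 1 ≠ 0) (h2 : r - 2 ≠ 0) (h3 : r ^ 2 - 3 * r + 1 ≠ 0) :
    (57/1000) * Real.log ‖r‖ + (101/500) * Real.log ‖r - 1‖ + (37/500) * Real.log ‖r - 2‖
      + (3/50) * Real.log ‖r ^ 2 - 3 * r + 1‖ ≤ (r * (r - 2) / (3 * (1 + r))).re := by
  have hr : 0 ≤ r.re := le_trans (by norm_num) ha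
  have l0 := lub (X := 24) (by norm_num) 147 (by norm_num)
  have l1 := lub (X := 15) (by norm_num) 126 (by norm_num)
  have l2 := lub (X := (211/25)) (by norm_num) 99 (by norm_num)
  have l3 := lub (X := 113) (by norm_num) 219 (by norm_num)
  refine red hr hi h0 h1 h2 h3 (by norm_num) (by norm_num) (by norm_num) (by norm_num) l0 l1 l2 l3 ?_
  generalize r.re = x at *
  have hB := bern5 (u := x - (171/40)) (w := (43/8) - x) (by linarith) (by linarith)
    (16232817621155141/55906599936000000) (352281043016008021/157283901153280000) (1447810383237307483/235925851729920000) (24666962482367701/3145678023065600) (450732050539071943/94370340691968000) (7056942802550441/6291356046131200) (by norm_num) (by norm_num) (by norm_num) (by norm_num) (by norm_num) (by norm_num)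
  refine le_trans hB (le_of_eq ?_)
  push_cast
  ring


theorem pc_11 {r : ℂ} (ha : (43/8) ≤ r.re) (hb : r.re ≤ (281/40))
    (hi : r.im ^ 2 ≤ (1 + r.re) ^ 2 / 100) (h0 : r ≠ 0)
    (h1 : r - 1 ≠ 0) (h2 : r - 2 ≠ 0) (h3 : r ^ 2 - 3 * r + 1 ≠ 0) :
    (57/1000) * Real.log ‖r‖ + (101/500) * Real.log ‖r - 1‖ + (37/500) * Real.log ‖r - 2‖
      + (3/50) * Real.log ‖r ^ 2 - 3 * r + 1‖ ≤ (r * (r - 2) / (3 * (1 + r))).re := by
  have hr : 0 ≤ r.re := le_trans (by norm_num) ha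
  have l0 := lub (X := 39) (by norm_num) 170 (by norm_num)
  have l1 := lub (X := 28) (by norm_num) 154 (by norm_num)
  have l2 := lub (X := 18) (by norm_num) 134 (by norm_num)
  have l3 := lubh (X := 497) (by norm_num) 144 (by norm_num)
  refine red hr hi h0 h1 h2 h3 (by norm_num) (by norm_num) (by norm_num) (by norm_num) l0 l1 l2 l3 ?_
  generalize r.re = x at *
  have hB := bern5 (u := x - (43/8)) (w := (281/40) - x) (by linarith) (by linarith)
    (1880011251729439/12946113237657600) (20956712320187923/21576855396096000) (11443749006662849/4623611870592000) (98493930598436473/32365283094144000) (196275748767007457/107884276980480000) (3439500955097151761/8091320773536000000) (by norm_num) (by norm_num) (by norm_num) (by norm_num) (by norm_num) (by norm_num)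
  refine le_trans hB (le_of_eq ?_)
  push_cast
  ring


theorem pc_12 {r : ℂ} (ha : (281/40) ≤ r.re) (hb : r.re ≤ 9)
    (hi : r.im ^ 2 ≤ (1 + r.re) ^ 2 / 100) (h0 : r ≠ 0)
    (h1 : r - 1 ≠ 0) (h2 : r - 2 ≠ 0) (h3 : r ^ 2 - 3 * r + 1 ≠ 0) :
    (57/1000) * Real.log ‖r‖ + (101/500) * Real.log ‖r - 1‖ + (37/500) * Real.log ‖r - 2‖
      + (3/50) * Real.log ‖r ^ 2 - 3 * r + 1‖ ≤ (r * (r - 2) / (3 * (1 + r))).re := by
  have hr : 0 ≤ r.re := le_trans (by norm_num) ha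
  have l0 := lub (X := 65) (by norm_num) 193 (by norm_num)
  have l1 := lub (X := 50) (by norm_num) 181 (by norm_num)
  have l2 := lub (X := 37) (by norm_num) 167 (by norm_num)
  have l3 := lubh (X := 1872) (by norm_num) 174 (by norm_num)
  refine red hr hi h0 h1 h2 h3 (by norm_num) (by norm_num) (by norm_num) (by norm_num) l0 l1 l2 l3 ?_
  generalize r.re = x at *
  have hB := bern5 (u := x - (281/40)) (w := 9 - x) (by linarith) (by linarith)
    (111018934268623373/640027730992000000) (25209143829251123/24001039912200000) (3744965839143839/1500064994512500) (43798642249052/15000649945125) (25257384756346/15000649945125) (76725960672/200008665935) (by norm_num) (by norm_num) (by norm_num) (by norm_num) (by norm_num) (by norm_num)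
  refine le_trans hB (le_of_eq ?_)
  push_cast
  ring


theorem tail {r : ℂ} (ha : 9 ≤ r.re) (hi : r.im ^ 2 ≤ (1 + r.re) ^ 2 / 100) (h0 : r ≠ 0)
    (h1 : r - 1 ≠ 0) (h2 : r - 2 ≠ 0) (h3 : r ^ 2 - 3 * r + 1 ≠ 0) :
    (57/1000) * Real.log ‖r‖ + (101/500) * Real.log ‖r - 1‖ + (37/500) * Real.log ‖r - 2‖
      + (3/50) * Real.log ‖r ^ 2 - 3 * r + 1‖ ≤ (r * (r - 2) / (3 * (1 + r))).re := by
  have hnr : 0 < ‖r‖ := norm_pos_iff.2 h0
  obtain ⟨x, y⟩ := r
  simp only at ha hi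
  have n0 : ‖(⟨x, y⟩ : ℂ)‖ ^ 2 = x ^ 2 + y ^ 2 := by
    rw [Complex.sq_norm, Complex.normSq_apply]; ring
  have n1 : ‖(⟨x, y⟩ : ℂ) - 1‖ ^ 2 = (x - 1) ^ 2 + y ^ 2 := by
    rw [Complex.sq_norm, Complex.normSq_apply]; simp; ring
  have n2 : ‖(⟨x, y⟩ : ℂ) - 2‖ ^ 2 = (x - 2) ^ 2 + y ^ 2 := by
    rw [Complex.sq_norm, Complex.normSq_apply]; simp; ring
  have n3 : ‖(⟨x, y⟩ : ℂ) ^ 2 - 3 * ⟨x, y⟩ + 1‖ ^ 2 =
      (x ^ 2 - 3 * x + 1) ^ 2 + y ^ 2 * (2 * x ^ 2 - 6 * x + 7) + (y ^ 2) ^ 2 := by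
    rw [Complex.sq_norm, Complex.normSq_apply]; simp [pow_two]; ring
  have k1 : ‖(⟨x, y⟩ : ℂ) - 1‖ ≤ ‖(⟨x, y⟩ : ℂ)‖ := by
    apply le_of_sq_le_sq _ hnr.le
    rw [n0, n1]; nlinarith
  have k2 : ‖(⟨x, y⟩ : ℂ) - 2‖ ≤ ‖(⟨x, y⟩ : ℂ)‖ := by
    apply le_of_sq_le_sq _ hnr.le
    rw [n0, n2]; nlinarith
  have k3 : ‖(⟨x, y⟩ : ℂ) ^ 2 - 3 * ⟨x, y⟩ + 1‖ ≤ ‖(⟨x, y⟩ : ℂ)‖ ^ 2 := by
    apply le_of_sq_le_sq _ (by positivity)
    rw [n3, n0]
    nlinarith [sq_nonneg y, mul_nonneg (sq_nonneg y) (by linarith : (0 : ℝ) ≤ x)]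
  have g1 := Real.log_le_log (norm_pos_iff.2 h1) k1
  have g2 := Real.log_le_log (norm_pos_iff.2 h2) k2
  have g3 := Real.log_le_log (norm_pos_iff.2 h3) k3
  rw [Real.log_pow] at g3
  push_cast at g3
  -- `log |r| ≤ (101/400) x + 2/5`
  have hlog : Real.log ‖(⟨x, y⟩ : ℂ)‖ ≤ (101 / 400) * x + 2 / 5 := by
    have e1 : ‖(⟨x, y⟩ : ℂ)‖ ≤ (101 / 100) * x := by
      apply le_of_sq_le_sq _ (by linarith)
      rw [n0]
      nlinarith
    have e2 : Real.log (‖(⟨x, y⟩ : ℂ)‖ / 4) ≤ ‖(⟨x, y⟩ : ℂ)‖ / 4 - 1 :=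
      Real.log_le_sub_one_of_pos (by positivity)
    rw [Real.log_div hnr.ne' (by norm_num)] at e2
    have e3 : Real.log 4 = 2 * Real.log 2 := by
      rw [show (4 : ℝ) = 2 ^ 2 by norm_num, Real.log_pow]; norm_num
    have e4 := Real.log_two_lt_d9
    nlinarith
  have hne : (1 + (⟨x, y⟩ : ℂ)) ≠ 0 := by
    intro h
    have := congrArg Complex.re h
    simp at this
    linarith
  have hns : Complex.normSq (1 + (⟨x, y⟩ : ℂ)) = (1 + x) ^ 2 + y ^ 2 := by
    rw [Complex.normSq_apply]; simp; ring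
  have hL : ((⟨x, y⟩ : ℂ) * (⟨x, y⟩ - 2) / (3 * (1 + ⟨x, y⟩))).re =
      x / 3 - 1 + (1 + x) / ((1 + x) ^ 2 + y ^ 2) := by
    have e : (⟨x, y⟩ : ℂ) * (⟨x, y⟩ - 2) / (3 * (1 + ⟨x, y⟩)) =
        (⟨x, y⟩ : ℂ) * ((1 / 3 : ℝ) : ℂ) - 1 + (1 + (⟨x, y⟩ : ℂ))⁻¹ := by
      push_cast
      field_simp
      ring
    rw [e, Complex.add_re, Complex.sub_re, Complex.re_mul_ofReal, Complex.inv_re, hns]
    simp
    ring
  have hpos : 0 ≤ (1 + x) / ((1 + x) ^ 2 + y ^ 2) := by positivity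
  rw [hL]
  nlinarith


/-- The auxiliary-function inequality near the half-line. -/
theorem cineq {r : ℂ} (hr : 0 ≤ r.re) (hi : |r.im| ≤ (1 + r.re) / 10) (h0 : r ≠ 0)
    (h1 : r - 1 ≠ 0) (h2 : r - 2 ≠ 0) (h3 : r ^ 2 - 3 * r + 1 ≠ 0) :
    (57/1000) * Real.log ‖r‖ + (101/500) * Real.log ‖r - 1‖ + (37/500) * Real.log ‖r - 2‖
      + (3/50) * Real.log ‖r ^ 2 - 3 * r + 1‖ ≤ (r * (r - 2) / (3 * (1 + r))).re := by
  have hi2 : r.im ^ 2 ≤ (1 + r.re) ^ 2 / 100 := by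
    have := pow_le_pow_left₀ (abs_nonneg _) hi 2
    rw [sq_abs] at this
    linarith [this, (by ring : ((1 + r.re) / 10) ^ 2 = (1 + r.re) ^ 2 / 100)]
  rcases le_total r.re (9/40) with c0 | c0
  · exact pc_0 hr c0 hi2 h0 h1 h2 h3
  rcases le_total r.re (17/40) with c1 | c1
  · exact pc_1 c0 c1 hi2 h0 h1 h2 h3
  rcases le_total r.re (29/40) with c2 | c2
  · exact pc_2 c1 c2 hi2 h0 h1 h2 h3
  rcases le_total r.re (47/40) with c3 | c3
  · exact pc_3 c2 c3 hi2 h0 h1 h2 h3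
  rcases le_total r.re (8/5) with c4 | c4
  · exact pc_4 c3 c4 hi2 h0 h1 h2 h3
  rcases le_total r.re 2 with c5 | c5
  · exact pc_5 c4 c5 hi2 h0 h1 h2 h3
  rcases le_total r.re (13/5) with c6 | c6
  · exact pc_6 c5 c6 hi2 h0 h1 h2 h3
  rcases le_total r.re (121/40) with c7 | c7
  · exact pc_7 c6 c7 hi2 h0 h1 h2 h3
  rcases le_total r.re (141/40) with c8 | c8
  · exact pc_8 c7 c8 hi2 h0 h1 h2 h3
  rcases le_total r.re (171/40) with c9 | c9
  · exact pc_9 c8 c9 hi2 h0 h1 h2 h3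
  rcases le_total r.re (43/8) with c10 | c10
  · exact pc_10 c9 c10 hi2 h0 h1 h2 h3
  rcases le_total r.re (281/40) with c11 | c11
  · exact pc_11 c10 c11 hi2 h0 h1 h2 h3
  rcases le_total r.re 9 with c12 | c12
  · exact pc_12 c11 c12 hi2 h0 h1 h2 h3
  exact tail c12 hi2 h0 h1 h2 h3

end Pool.Agent.Y725.DP
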